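import Pool.Agent.H.MP_59b15d_al.deg.LiftA
import Pool.Agent.H.MP_59b15d_al.h52e.Irr

/-!
Central extensions: the perfect central extension inside a central extension, Schur's lemma, and
the elements which act trivially in all irreducible representations of bounded dimension.
-/

set_option autoImplicit false

namespace Pool.Agent.H.MP_59b15d_al.H73P

universe u v w

open Module Pool.Agent.H.MP_59b15d_al.Lft Pool.Agent.H.MP_59b15d_al.H52E
open Pool.Agent.H.MP_59b15d_al.Lin (CompRed)
open scoped commutatorElement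

section ext

variable {E Γ : Type*} [Group E] [Group Γ] {π : E →* Γ}

theorem exists_mul {K : Subgroup E} (hK : K.map π = ⊤) (x : E) :
    ∃ z, π z = 1 ∧ ∃ k ∈ K, x = z * k := by
  obtain ⟨k, hk, e⟩ : π x ∈ K.map π := hK ▸ Subgroup.mem_top _
  obtain ⟨z, hz, e'⟩ := exists_z e.symm
  exact ⟨z, hz, k, hk, e'⟩

theorem comm_mul {z x w y : E} (hz : ∀ x, z * x = x * z) (hw : ∀ x, w * x = x * w) :
    ⁅z * x, w * y⁆ = ⁅x, y⁆ := by
  simp only [commutatorElement_def, mul_inv_rev]
  calc z * x * (w * y) * (x⁻¹ * z⁻¹) * (y⁻¹ * w⁻¹) =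
      z * x * (w * y) * x⁻¹ * z⁻¹ * y⁻¹ * w⁻¹ := by group
    _ = z * (x * w) * y * x⁻¹ * z⁻¹ * y⁻¹ * w⁻¹ := by group
    _ = (z * w) * (x * y * x⁻¹) * z⁻¹ * y⁻¹ * w⁻¹ := by rw [← hw x]; group
    _ = (z * w * (x * y * x⁻¹ * z⁻¹ * y⁻¹)) * w⁻¹ := by group
    _ = ((x * y * x⁻¹ * z⁻¹ * y⁻¹) * (z * w)) * w⁻¹ := by
        congr 1
        rw [mul_assoc, hw, ← mul_assoc, hz, mul_assoc]
    _ = x * y * x⁻¹ * z⁻¹ * (y⁻¹ * z) := by group
    _ = x * y * x⁻¹ * z⁻¹ * (z * y⁻¹) := by rw [hz]
    _ = x * y * x⁻¹ * y⁻¹ := by group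

theorem comm_le (h : CE π) {K : Subgroup E} (hK : K.map π = ⊤) : commutator E ≤ ⁅K, K⁆ := by
  rw [commutator_def, Subgroup.commutator_le]
  intro x _ y _
  obtain ⟨z, hz, k, hk, rfl⟩ := exists_mul hK x
  obtain ⟨w, hw, l, hl, rfl⟩ := exists_mul hK y
  rw [comm_mul (h.cen z hz) (h.cen w hw)]
  exact Subgroup.commutator_mem_commutator hk hl

/-- A subgroup of a perfect central extension which maps onto the quotient is everything. -/
theorem eq_top (h : CE π) (hE : ∀ x : E, x ∈ commutator E) {K : Subgroup E}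
    (hK : K.map π = ⊤) : K = ⊤ := by
  rw [eq_top_iff]
  intro x _
  have h1 := comm_le h hK (hE x)
  have h2 : ⁅K, K⁆ ≤ K := Subgroup.commutator_le.2 fun a ha b hb =>
    K.mul_mem (K.mul_mem (K.mul_mem ha hb) (K.inv_mem ha)) (K.inv_mem hb)
  exact h2 h1

/-- The restriction to the commutator subgroup. -/
def cpi (π : E →* Γ) : commutator E →* Γ := π.comp (commutator E).subtype

@[simp] theorem cpi_apply (x : commutator E) : cpi π x = π x := rfl

theorem map_comm (h : CE π) (hΓ : ∀ x : Γ, x ∈ commutator Γ) : (commutator E).map π = ⊤ := by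
  rw [commutator_def, Subgroup.map_commutator, ← MonoidHom.range_eq_map,
    MonoidHom.range_eq_top.2 h.sur, ← commutator_def, eq_top_iff]
  exact fun x _ => hΓ x

/-- The commutator subgroup of a central extension of a perfect group is again a central
extension. -/
theorem cpi_ce (h : CE π) (hΓ : ∀ x : Γ, x ∈ commutator Γ) : CE (cpi π) where
  sur x := by
    obtain ⟨y, hy, e⟩ : x ∈ (commutator E).map π := map_comm h hΓ ▸ Subgroup.mem_top x
    exact ⟨⟨y, hy⟩, e⟩
  cen z hz x := Subtype.ext (h.cen z hz x)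

/-- The commutator subgroup of a central extension of a perfect group is perfect. -/
theorem perf_c (h : CE π) (hΓ : ∀ x : Γ, x ∈ commutator Γ) (x : commutator E) :
    x ∈ commutator (commutator E) := by
  have h1 := comm_le h (map_comm h hΓ) x.2
  have h2 : (commutator (commutator E)).map (commutator E).subtype =
      ⁅commutator E, commutator E⁆ := by
    rw [commutator_def (commutator E), Subgroup.map_commutator, ← MonoidHom.range_eq_map,
      Subgroup.range_subtype]
  rw [← h2] at h1
  obtain ⟨y, hy, e⟩ := h1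
  have h3 : y = x := Subtype.ext e
  rwa [← h3]

end ext

section schur

variable {F : Type u} [Field F] {E : Type w} [Group E]

/-- **Schur's lemma.** -/
theorem schur_z [IsAlgClosed F] {W : Type v} [AddCommGroup W] [Module F W] [FiniteDimensional F W]
    {τ : E →* Module.End F W} (hirr : Irr τ) {z : E} (hz : ∀ x, z * x = x * z) :
    ∃ c : F, ∀ v, τ z v = c • v := by
  rcases subsingleton_or_nontrivial W with hW | hW
  · exact ⟨0, fun v => Subsingleton.elim _ _⟩
  · obtain ⟨c, hc⟩ := Module.End.exists_eigenvalue (τ z)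
    refine ⟨c, fun v => ?_⟩
    have h1 := hirr (Module.End.eigenspace (τ z) c) (by
      intro g u hu
      rw [Module.End.mem_eigenspace_iff] at hu ⊢
      rw [← Module.End.mul_apply, ← map_mul, hz g, map_mul, Module.End.mul_apply, hu, map_smul])
    rcases h1 with h1 | h1
    · exact absurd h1 hc
    · have h2 : v ∈ Module.End.eigenspace (τ z) c := by rw [h1]; exact Submodule.mem_top
      exact Module.End.mem_eigenspace_iff.1 h2

/-- The elements which act trivially in the irreducible representations of dimension at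
most `D`. -/
def T1 (E : Type w) [Group E] (F : Type u) [Field F] (D : ℕ) : Subgroup E where
  carrier := {x | ∀ (W : Type v) [AddCommGroup W] [Module F W] [FiniteDimensional F W]
    (τ : E →* Module.End F W), finrank F W ≤ D → Irr τ → τ x = 1}
  one_mem' := fun W _ _ _ τ _ _ => map_one τ
  mul_mem' := by
    intro x y hx hy W _ _ _ τ hD hirr
    rw [map_mul, hx W τ hD hirr, hy W τ hD hirr, one_mul]
  inv_mem' := by
    intro x hx W _ _ _ τ hD hirr
    have h1 : τ x⁻¹ * τ x = 1 := by rw [← map_mul, inv_mul_cancel, map_one]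
    rwa [hx W τ hD hirr, mul_one] at h1

theorem mem_T1 {D : ℕ} {x : E} : x ∈ T1.{u, v, w} E F D ↔
    ∀ (W : Type v) [AddCommGroup W] [Module F W] [FiniteDimensional F W]
      (τ : E →* Module.End F W), finrank F W ≤ D → Irr τ → τ x = 1 := Iff.rfl

instance T1_normal (D : ℕ) : (T1.{u, v, w} E F D).Normal := by
  constructor
  intro x hx y W _ _ _ τ hD hirr
  rw [map_mul, map_mul, hx W τ hD hirr, mul_one, ← map_mul, mul_inv_cancel, map_one]

/-- The elements of `T1` act trivially in the completely reducible representations. -/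
theorem T1_cr {D : ℕ} {V : Type v} [AddCommGroup V] [Module F V] [FiniteDimensional F V]
    (ρ : E →* Module.End F V) (hD : finrank F V ≤ D) (hρ : CompRed ρ) {x : E}
    (hx : x ∈ T1.{u, v, w} E F D) : ρ x = 1 :=
  kill_of_irr (T := T1.{u, v, w} E F D) (fun W _ _ _ τ hW hirr _ hy => hy W τ hW hirr) V ρ hD hρ
    x hx

/-- The elements of `T1` act unipotently. -/
theorem T1_unip {D : ℕ} {V : Type v} [AddCommGroup V] [Module F V] [FiniteDimensional F V]
    (ρ : E →* Module.End F V) (hD : finrank F V ≤ D) (l : List E)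
    (hl : ∀ x ∈ l, x ∈ T1.{u, v, w} E F D) (hlen : finrank F V ≤ l.length) :
    (l.map fun x => ρ x - 1).prod = 0 :=
  unip_of_irr (T := T1.{u, v, w} E F D) (fun W _ _ _ τ hW hirr _ hy => hy W τ hW hirr) V ρ hD l hl
    hlen

/-- A scalar in `T1` is trivial. -/
theorem T1_scalar {D : ℕ} {V : Type v} [AddCommGroup V] [Module F V] [FiniteDimensional F V]
    [Nontrivial V] (ρ : E →* Module.End F V) (hD : finrank F V ≤ D) {x : E}
    (hx : x ∈ T1.{u, v, w} E F D) {c : F} (hc : ∀ v, ρ x v = c • v) : c = 1 := by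
  obtain ⟨U, hU, -, hU0, hirr⟩ := exists_irr ρ ⊤ (fun _ _ _ => Submodule.mem_top) top_ne_bot
  have h1 := hx U (Lin.resW ρ U hU) ((Submodule.finrank_le U).trans hD) hirr
  obtain ⟨u, hu, hu0⟩ := Submodule.exists_mem_ne_zero_of_ne_bot hU0
  have h2 : ρ x u = u := congrArg Subtype.val (LinearMap.congr_fun h1 ⟨u, hu⟩)
  rw [hc u] at h2
  by_contra h3
  apply hu0
  have h4 : (c - 1) • u = 0 := by rw [sub_smul, h2, one_smul, sub_self]
  exact (smul_eq_zero.1 h4).resolve_left (sub_ne_zero.2 h3)

end schur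

end Pool.Agent.H.MP_59b15d_al.H73P
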