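import Mathlib

/-!
The linear representation of the central extension attached to a projective representation.
-/

set_option autoImplicit false

namespace Pool.Agent.H.MP_59b15d_al.H73P

open Module

variable {Γ F V : Type*} [Group Γ] [Field F] [AddCommGroup V] [Module F V]

/-- Projective representations: multiplicative up to scalars. -/
def IsProj (ρ : Γ → (V ≃ₗ[F] V)) : Prop :=
  ∀ x y, ∃ c : Fˣ, ∀ v, ρ (x * y) v = c • ρ x (ρ y v)

/-- It suffices that the scalars exist in the field. -/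
theorem IsProj.of_field {ρ : Γ → (V ≃ₗ[F] V)}
    (h : ∀ x y, ∃ c : F, ∀ v, ρ (x * y) v = c • ρ x (ρ y v)) : IsProj ρ := by
  intro x y
  obtain ⟨c, hc⟩ := h x y
  rcases eq_or_ne c 0 with rfl | h0
  · refine ⟨1, fun v => ?_⟩
    have h1 : ρ (x * y) v = ρ (x * y) 0 := by
      rw [hc v, hc 0, zero_smul, zero_smul]
    have h2 : v = 0 := (ρ (x * y)).injective h1
    rw [h2, map_zero, map_zero, map_zero, smul_zero]
  · exact ⟨Units.mk0 c h0, fun v => hc v⟩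

variable {ρ : Γ → (V ≃ₗ[F] V)}

theorem IsProj.one (hρ : IsProj ρ) : ∃ c : Fˣ, ∀ v, v = c • ρ 1 v := by
  obtain ⟨c, hc⟩ := hρ 1 1
  refine ⟨c, fun v => (ρ 1).injective ?_⟩
  have h1 := hc v
  rw [mul_one] at h1
  rw [Units.smul_def, map_smul, ← Units.smul_def]
  exact h1

theorem IsProj.inv (hρ : IsProj ρ) (x : Γ) : ∃ c : Fˣ, ∀ v, v = c • ρ x (ρ x⁻¹ v) := by
  obtain ⟨c, hc⟩ := hρ.one
  obtain ⟨d, hd⟩ := hρ x x⁻¹
  refine ⟨c * d, fun v => ?_⟩
  rw [mul_smul, ← hd v, mul_inv_cancel]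
  exact hc v

/-- The group of the pairs `(x, M)` where `M` is a multiple of `ρ x`. -/
def Gt (hρ : IsProj ρ) : Subgroup (Γ × (V ≃ₗ[F] V)) where
  carrier := {p | ∃ c : Fˣ, ∀ v, p.2 v = c • ρ p.1 v}
  one_mem' := by
    obtain ⟨c, hc⟩ := hρ.one
    exact ⟨c, fun v => hc v⟩
  mul_mem' := by
    rintro ⟨x, M⟩ ⟨y, N⟩ ⟨c, hc⟩ ⟨d, hd⟩
    obtain ⟨e, he⟩ := hρ x y
    refine ⟨c * d * e⁻¹, fun v => ?_⟩
    have h1 : ρ x (ρ y v) = e⁻¹ • ρ (x * y) v := by
      rw [he v, smul_smul, inv_mul_cancel, one_smul]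
    change M (N v) = (c * d * e⁻¹) • ρ (x * y) v
    rw [hd v]
    change M (d • ρ y v) = _
    rw [Units.smul_def, map_smul, hc]
    change (d : F) • c • ρ x (ρ y v) = _
    rw [h1]
    rw [← Units.smul_def, smul_smul, smul_smul]
    congr 1
    rw [mul_comm c d]
  inv_mem' := by
    rintro ⟨x, M⟩ ⟨c, hc⟩
    obtain ⟨d, hd⟩ := hρ.inv x
    refine ⟨d * c⁻¹, fun v => M.injective ?_⟩
    change M (M⁻¹ v) = M ((d * c⁻¹) • ρ x⁻¹ v)
    have h1 : M (M⁻¹ v) = v := by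
      change (M * M⁻¹) v = v
      rw [mul_inv_cancel]
      rfl
    rw [h1, Units.smul_def, map_smul, hc]
    conv_lhs => rw [hd v]
    change _ = ((d * c⁻¹ : Fˣ) : F) • c • ρ x (ρ x⁻¹ v)
    rw [← Units.smul_def, smul_smul, mul_assoc, inv_mul_cancel, mul_one]

variable (hρ : IsProj ρ)

/-- The projection to the group. -/
def pr : Gt hρ →* Γ := (MonoidHom.fst Γ (V ≃ₗ[F] V)).comp (Gt hρ).subtype

/-- The linear representation. -/
def sg : Gt hρ →* Module.End F V :=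
  (LinearEquiv.automorphismGroup.toLinearMapMonoidHom (R := F) (M := V)).comp
    ((MonoidHom.snd Γ (V ≃ₗ[F] V)).comp (Gt hρ).subtype)

@[simp] theorem pr_apply (p : Gt hρ) : pr hρ p = p.1.1 := rfl

@[simp] theorem sg_apply (p : Gt hρ) (v : V) : sg hρ p v = p.1.2 v := rfl

theorem sg_eq (p : Gt hρ) : ∃ c : Fˣ, ∀ v, sg hρ p v = c • ρ (pr hρ p) v := p.2

/-- Every element has a lift which acts as `ρ x`. -/
theorem exists_lift (x : Γ) : ∃ p : Gt hρ, pr hρ p = x ∧ ∀ v, sg hρ p v = ρ x v :=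
  ⟨⟨(x, ρ x), 1, fun _ => (one_smul _ _).symm⟩, rfl, fun _ => rfl⟩

theorem pr_surjective : Function.Surjective (pr hρ) := fun x =>
  let ⟨p, h, _⟩ := exists_lift hρ x
  ⟨p, h⟩

/-- The scalars. -/
def zc : Fˣ →* Gt hρ where
  toFun c := ⟨(1, DistribMulAction.toModuleAut F V c), by
    obtain ⟨d, hd⟩ := hρ.one
    refine ⟨c * d, fun v => ?_⟩
    change c • v = (c * d) • ρ 1 v
    rw [mul_smul, ← hd v]⟩
  map_one' := by
    apply Subtype.ext
    refine Prod.ext rfl ?_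
    exact map_one _
  map_mul' c d := by
    apply Subtype.ext
    refine Prod.ext (mul_one (1 : Γ)).symm ?_
    exact map_mul _ c d

@[simp] theorem pr_zc (c : Fˣ) : pr hρ (zc hρ c) = 1 := rfl

@[simp] theorem sg_zc (c : Fˣ) (v : V) : sg hρ (zc hρ c) v = c • v := rfl

/-- Two elements are equal if their images in `Γ` and their operators are equal. -/
theorem Gt_ext {p q : Gt hρ} (h1 : pr hρ p = pr hρ q) (h2 : ∀ v, sg hρ p v = sg hρ q v) :
    p = q :=
  Subtype.ext (Prod.ext h1 (LinearEquiv.ext h2))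

theorem zc_comm (c : Fˣ) (p : Gt hρ) : Commute (zc hρ c) p := by
  refine Gt_ext hρ ?_ fun v => ?_
  · rw [map_mul, map_mul, pr_zc, one_mul, mul_one]
  · rw [map_mul, map_mul, Module.End.mul_apply, Module.End.mul_apply, sg_zc, sg_zc,
      Units.smul_def, Units.smul_def, map_smul]

/-- The subgroup of the scalars. -/
def Zs : Subgroup (Gt hρ) := (zc hρ).range

theorem mem_Zs {p : Gt hρ} : p ∈ Zs hρ ↔ ∃ c, zc hρ c = p := Iff.rfl

theorem Zs_comm {z : Gt hρ} (hz : z ∈ Zs hρ) (p : Gt hρ) : Commute z p := by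
  obtain ⟨c, rfl⟩ := hz
  exact zc_comm hρ c p

theorem Zs_smul {z : Gt hρ} (hz : z ∈ Zs hρ) : ∃ c : F, ∀ v, sg hρ z v = c • v := by
  obtain ⟨c, rfl⟩ := hz
  exact ⟨c, fun v => rfl⟩

/-- The elements which act by a scalar and have a scalar image are scalars. -/
theorem pr_eq_one {p : Gt hρ} (h : pr hρ p = 1) : p ∈ Zs hρ := by
  obtain ⟨c, hc⟩ := sg_eq hρ p
  obtain ⟨d, hd⟩ := hρ.one
  refine ⟨c * d⁻¹, Gt_ext hρ h.symm fun v => ?_⟩
  rw [sg_zc, hc, h]
  conv_lhs => rw [hd v]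
  rw [smul_smul, mul_assoc, inv_mul_cancel, mul_one]

theorem pr_eq_one_iff {p : Gt hρ} : pr hρ p = 1 ↔ p ∈ Zs hρ := by
  refine ⟨pr_eq_one hρ, ?_⟩
  rintro ⟨c, rfl⟩
  rfl

theorem pr_eq {p q : Gt hρ} (h : pr hρ p = pr hρ q) : ∃ c : Fˣ, p = zc hρ c * q := by
  have h1 : pr hρ (p * q⁻¹) = 1 := by rw [map_mul, map_inv, h, mul_inv_cancel]
  obtain ⟨c, hc⟩ := pr_eq_one hρ h1
  exact ⟨c, by rw [hc, inv_mul_cancel_right]⟩

/-- The operators of two lifts of an element are proportional. -/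
theorem sg_eq_smul {p q : Gt hρ} (h : pr hρ p = pr hρ q) :
    ∃ c : Fˣ, ∀ v, sg hρ p v = c • sg hρ q v := by
  obtain ⟨c, rfl⟩ := pr_eq hρ h
  exact ⟨c, fun v => by rw [map_mul, Module.End.mul_apply, sg_zc]⟩

/-- The subspaces stable under the operators `ρ x` are those stable under the lifts in a subgroup
which maps onto `Γ`. -/
theorem stable_iff {K : Subgroup (Gt hρ)} (hK : ∀ x, ∃ p ∈ K, pr hρ p = x)
    (U : Submodule F V) :
    (∀ p ∈ K, ∀ u ∈ U, sg hρ p u ∈ U) ↔ ∀ x, ∀ u ∈ U, ρ x u ∈ U := by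
  constructor
  · intro h x u hu
    obtain ⟨p, hp, rfl⟩ := hK x
    obtain ⟨c, hc⟩ := sg_eq hρ p
    have h1 := h p hp u hu
    rw [hc u] at h1
    have h2 := U.smul_mem ((c⁻¹ : Fˣ) : F) h1
    rwa [← Units.smul_def, smul_smul, inv_mul_cancel, one_smul] at h2
  · intro h p _ u hu
    obtain ⟨c, hc⟩ := sg_eq hρ p
    rw [hc u]
    exact U.smul_mem (c : F) (h _ u hu)

end Pool.Agent.H.MP_59b15d_al.H73P
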