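import Pool.Agent.H.MP_59b15d_al.deg.LiftA
import Pool.Agent.H.MP_59b15d_al.h52e.DegY
import Pool.Agent.H.MP_59b15d_al.h52e.Fin
import Pool.Agent.H.MP_59b15d_al.h60e.EvM
import Pool.Agent.H.MP_59b15d_al.h62d.Mcg

/-!
The Torelli group and the bounding pair maps; perfectness of the mapping class group.
-/

set_option autoImplicit false

namespace Pool.Agent.H.MP_59b15d_al.H73P

universe u v w

open Module Pool.Agent.H.MP_59b15d_al.Lft Pool.Agent.H.MP_59b15d_al.H52E
open Pool.MP_59b15d_al.H24T Pool.MP_59b15d_al.H76R Pool.MP_59b15d_al.H73E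
open Pool.MP_59b15d_al.H60G Pool.MP_59b15d_al.H40L Pool.MP_59b15d_al.H46U
open Pool.Agent.H.MP_59b15d_al.Deg
open Pool.Agent.H.MP_59b15d_al.Lin (uA uB uC)
open Pool.Agent.H.MP_59b15d_al.SP (cls H1 cls_mul cls_inv cls_one cls_a cls_b)

variable {m : ℕ} {G : Type*} [Group G] {a b : Fin m → G}

section tor

variable (h : IsSurf a b)

theorem cls_conj (x y : G) : cls h (x * y * x⁻¹) = cls h y := by
  rw [cls_mul, cls_mul, cls_inv]
  abel

theorem cls_DD (k : ℕ) : cls h (DD a b k) = 0 := by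
  induction k with
  | zero => rw [DD_zero]; exact cls_one h
  | succ k ih =>
    rw [DD_succ, cls_mul, ih, cm, cls_mul, cls_mul, cls_mul, cls_inv, cls_inv]
    abel

theorem cls_cp (q : Fin m) : cls h (cp a b q) = cls h (a q) := by
  rw [cp, cls_mul, cls_DD, zero_add]

/-- The bounding pair maps act trivially on the homology. -/
theorem Tp_tor (q : Fin m) : H1 h (TA h q * Tp h q) = 1 := by
  refine SP.lin_ext (fun k => ?_) (fun k => ?_)
  · rw [SP.H1_e, MulAut.mul_apply]
    rcases le_or_gt k q with hk | hk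
    · rw [Tp_a_le h hk, map_mul, map_mul, map_inv, TA_a, cls_conj, cls_a]
      rfl
    · rw [Tp_a_gt h hk, TA_a, cls_a]
      rfl
  · rw [SP.H1_f, MulAut.mul_apply]
    rcases lt_trichotomy k q with hk | rfl | hk
    · rw [Tp_b_lt h hk, map_mul, map_mul, map_inv, TA_b_ne h hk.ne, cls_conj, cls_b]
      rfl
    · have e1 : cls h (TA h k (cp a b k)) = cls h (a k) := by
        rw [← SP.H1_cls, cls_cp, SP.H1_cls, TA_a]
      rw [Tp_b_self, map_mul, TA_b, map_inv, cls_mul, cls_mul, cls_inv, e1]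
      rw [cls_b, add_assoc, add_neg_cancel, add_zero]
      rfl
    · rw [Tp_b_gt h hk, TA_b_ne h hk.ne', cls_b]
      rfl

theorem uA_uT_tor (q : Fin m) : (uA h q)⁻¹ * uT h q ∈ Tor h := by
  intro x
  have e1 : (((uA h q)⁻¹ * uT h q : MCG a b) : MulAut G) = TA h q * Tp h q := by
    change (TrA h q)⁻¹ * Tp h q = TA h q * Tp h q
    rw [TrA_lt h q.2, inv_inv]
  rw [e1, ← SP.H1_cls, Tp_tor h q]
  rfl

/-- A normal subgroup which contains two consecutive bounding pair maps contains the Torelli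
group. -/
theorem tor_le (hm : 3 ≤ m) (N : Subgroup (MCG a b)) [N.Normal] {q q' : Fin m}
    (hq : (q' : ℕ) = q + 1) (h1 : (uA h q)⁻¹ * uT h q ∈ N) (h2 : (uA h q')⁻¹ * uT h q' ∈ N) :
    Tor h ≤ N := by
  intro φ hφ
  have h3 := H62D.torelli_mcg h hm (QuotientGroup.mk' N) hq (QuotientGroup.eq.2 h1)
    (QuotientGroup.eq.2 h2) φ hφ
  exact (QuotientGroup.eq_one_iff φ).1 h3

include h in
/-- The mapping class group is perfect. -/
theorem mcg_perfect (hm : 3 ≤ m) (x : MCG a b) : x ∈ commutator (MCG a b) := by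
  obtain ⟨n, rfl⟩ : ∃ n, m = n + 1 := ⟨m - 1, by omega⟩
  have key : ∀ {lo : ℕ} (_ : lo + 3 ≤ n + 1) {y : MCG a b},
      (y : MulAut G) ∈ Pool.MP_59b15d_al.H60G.MR h lo (lo + 3) → y ∈ commutator (MCG a b) := by
    intro lo hlo y hy
    have h1 := MR3_comm h hlo hy
    have h2 : ⁅Pool.MP_59b15d_al.H60G.MR h lo (lo + 3), Pool.MP_59b15d_al.H60G.MR h lo (lo + 3)⁆ ≤
        ⁅MCG a b, MCG a b⁆ :=
      Subgroup.commutator_mono (Lin.MR_le_MCG h _ _) (Lin.MR_le_MCG h _ _)
    have h3 := h2 h1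
    rw [← map_comm_sub] at h3
    obtain ⟨z, hz, e⟩ := h3
    have h4 : z = y := Subtype.ext e
    rwa [← h4]
  have h1 := Pool.MP_59b15d_al.H60E.hgen_mcg h (commutator (MCG a b))
    (fun i hi => by
      rcases (by omega : i + 3 ≤ n + 1 ∨ n < i + 2) with h1 | h1
      · exact key h1 (Lin.TrA_mem h le_rfl (by omega))
      · exact key (lo := n - 2) (by omega) (Lin.TrA_mem h (by omega) (by omega)))
    (fun i hi => by
      rcases (by omega : i + 3 ≤ n + 1 ∨ n < i + 2) with h1 | h1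
      · exact key h1 (Lin.TrB_mem h le_rfl (by omega))
      · exact key (lo := n - 2) (by omega) (Lin.TrB_mem h (by omega) (by omega)))
    (fun i hi => by
      rcases (by omega : i + 3 ≤ n + 1 ∨ n < i + 2) with h1 | h1
      · exact key h1 (Lin.TrC_mem h le_rfl (by omega))
      · exact key (lo := n - 2) (by omega) (Lin.TrC_mem h (by omega) (by omega)))
  rw [h1]
  exact Subgroup.mem_top x

end tor

end Pool.Agent.H.MP_59b15d_al.H73P
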