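import Pool.Agent.H.MP_59b15d_al.deg.LiftH
import Pool.Agent.H.MP_59b15d_al.h52e.Faith
import Pool.Agent.H.MP_59b15d_al.h73p.Cext
import Pool.Agent.H.MP_59b15d_al.h73p.Gt
import Pool.Agent.H.MP_59b15d_al.h73p.Tor1

/-!
The conclusions for projective representations of the mapping class group.
-/

set_option autoImplicit false

namespace Pool.Agent.H.MP_59b15d_al.H73P

universe u v w

open Module Pool.Agent.H.MP_59b15d_al.H52E
open Pool.Agent.H.MP_59b15d_al.Lft (CE Sz TorL map_TorL)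
open Pool.MP_59b15d_al.H24T Pool.MP_59b15d_al.H76R Pool.MP_59b15d_al.H73E
open Pool.MP_59b15d_al.H60G Pool.MP_59b15d_al.H40L Pool.MP_59b15d_al.H46U
open Pool.Agent.H.MP_59b15d_al.Lin (CompRed exists_char_lev dv_of_innMod)
open Pool.Agent.H.MP_59b15d_al.SP (cls H1 csp_H1)
open Pool.Agent.H.MP_59b15d_al.H40T (XX_triv)
open Pool.MP_59b15d_al.H76 (StdGen InnMod)
open FreeGroup (of)

section gen

variable {Γ : Type w} [Group Γ] {F : Type u} [Field F] {V : Type v} [AddCommGroup V] [Module F V]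
  {ρ : Γ → (V ≃ₗ[F] V)} (hρ : IsProj ρ)

theorem ce_pr : CE (pr hρ) where
  sur := pr_surjective hρ
  cen z hz x := (Zs_comm hρ (pr_eq_one hρ hz) x).eq

/-- The projection of the perfect extension. -/
def pe : commutator (Gt hρ) →* Γ := cpi (pr hρ)

/-- The linear representation of the perfect extension. -/
def se : commutator (Gt hρ) →* Module.End F V := (sg hρ).comp (commutator (Gt hρ)).subtype

theorem se_eq (x : commutator (Gt hρ)) : ∃ c : Fˣ, ∀ v, se hρ x v = c • ρ (pe hρ x) v :=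
  sg_eq hρ x

/-- The kernel acts by scalars. -/
theorem se_sz : Sz {z | pe hρ z = 1} (se hρ) := by
  intro z hz
  have h2 : pr hρ (z : Gt hρ) = 1 := hz
  exact Zs_smul hρ (pr_eq_one hρ h2)

theorem eq_one_of_se {z : commutator (Gt hρ)} (hz : pe hρ z = 1) (h1 : se hρ z = 1) : z = 1 :=
  Subtype.ext (Gt_ext hρ hz fun v => LinearMap.congr_fun h1 v)

variable (hΓ : ∀ x : Γ, x ∈ commutator Γ)

section ce

include hΓ

theorem ce_pe : CE (pe hρ) := cpi_ce (ce_pr hρ) hΓ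

theorem perf_pe (x : commutator (Gt hρ)) : x ∈ commutator (commutator (Gt hρ)) :=
  perf_c (ce_pr hρ) hΓ x

theorem se_stable (U : Submodule F V) :
    (∀ x, ∀ u ∈ U, se hρ x u ∈ U) ↔ ∀ x, ∀ u ∈ U, ρ x u ∈ U := by
  rw [← stable_iff hρ (K := commutator (Gt hρ)) (fun x => by
    obtain ⟨y, hy⟩ := (ce_pe hρ hΓ).sur x
    exact ⟨y, y.2, hy⟩) U]
  exact ⟨fun H p hp => H ⟨p, hp⟩, fun H x => H x x.2⟩

theorem se_cr (hcr : ∀ U : Submodule F V, (∀ x, ∀ u ∈ U, ρ x u ∈ U) →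
    ∃ W : Submodule F V, (∀ x, ∀ u ∈ W, ρ x u ∈ W) ∧ IsCompl U W) : CompRed (se hρ) := by
  intro U hU
  obtain ⟨W, hW, hc⟩ := hcr U ((se_stable hρ hΓ U).1 hU)
  exact ⟨W, (se_stable hρ hΓ W).2 hW, hc⟩

theorem se_irr (hirr : ∀ U : Submodule F V, (∀ x, ∀ u ∈ U, ρ x u ∈ U) → U = ⊥ ∨ U = ⊤) :
    Irr (se hρ) := fun U hU => hirr U ((se_stable hρ hΓ U).1 hU)

end ce

/-- If the operators `ρ x` are multiplicative, then the extension is the group. -/
theorem se_lin (hl : ∀ x y v, ρ (x * y) v = ρ x (ρ y v)) (x : commutator (Gt hρ)) (v : V) :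
    se hρ x v = ρ (pe hρ x) v := by
  let f : Gt hρ →* (V ≃ₗ[F] V) := (MonoidHom.snd Γ (V ≃ₗ[F] V)).comp (Gt hρ).subtype
  have r1 : ∀ v, ρ 1 v = v := by
    intro v
    apply (ρ 1).injective
    rw [← hl, mul_one]
  let r : Γ →* (V ≃ₗ[F] V) :=
    { toFun := ρ
      map_one' := LinearEquiv.ext fun v => r1 v
      map_mul' := fun x y => LinearEquiv.ext fun v => hl x y v }
  -- the elements with equal operators form a normal subgroup with commutative quotient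
  have key : ∀ p q : Gt hρ, f (p * q * p⁻¹ * q⁻¹) = r (pr hρ (p * q * p⁻¹ * q⁻¹)) := by
    intro p q
    obtain ⟨c, hc⟩ := sg_eq hρ p
    obtain ⟨d, hd⟩ := sg_eq hρ q
    have ep : ∀ v, f p v = c • r (pr hρ p) v := hc
    have eq : ∀ v, f q v = d • r (pr hρ q) v := hd
    have e1 : f (p * q * p⁻¹ * q⁻¹) * (f q * f p) = f p * f q := by
      rw [← map_mul, ← map_mul, ← map_mul]
      congr 1
      group
    have e2 : r (pr hρ (p * q * p⁻¹ * q⁻¹)) * (r (pr hρ q) * r (pr hρ p)) =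
        r (pr hρ p) * r (pr hρ q) := by
      have e5 : (p * q * p⁻¹ * q⁻¹) * (q * p) = p * q := by group
      have e6 := congrArg (fun y => r (pr hρ y)) e5
      simp only [map_mul] at e6 ⊢
      exact e6
    have e3 : ∀ v, (f q * f p) v = (d * c) • (r (pr hρ q) * r (pr hρ p)) v := by
      intro v
      change f q (f p v) = (d * c) • r (pr hρ q) (r (pr hρ p) v)
      rw [ep, eq, Units.smul_def c, map_smul, ← Units.smul_def, smul_smul]
    have e4 : ∀ v, (f p * f q) v = (d * c) • (r (pr hρ p) * r (pr hρ q)) v := by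
      intro v
      change f p (f q v) = (d * c) • r (pr hρ p) (r (pr hρ q) v)
      rw [eq, ep, Units.smul_def d, map_smul, ← Units.smul_def, smul_smul, mul_comm c d]
    refine LinearEquiv.ext fun v => ?_
    obtain ⟨u, rfl⟩ := (r (pr hρ q) * r (pr hρ p)).surjective v
    have h1 := LinearEquiv.congr_fun e1 u
    have h2 := LinearEquiv.congr_fun e2 u
    have h3 : f (p * q * p⁻¹ * q⁻¹) ((d * c) • (r (pr hρ q) * r (pr hρ p)) u) =
        (d * c) • (r (pr hρ p) * r (pr hρ q)) u := by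
      rw [← e3, ← e4]
      exact h1
    rw [Units.smul_def, map_smul, ← Units.smul_def] at h3
    have h4 := smul_left_cancel (d * c) h3
    rw [h4]
    exact h2.symm
  have hker : ∀ y ∈ commutator (Gt hρ), f y = r (pr hρ y) := by
    intro y hy
    rw [commutator_eq_closure] at hy
    induction hy using Subgroup.closure_induction with
    | mem y hy =>
      obtain ⟨p, q, rfl⟩ := hy
      exact key p q
    | one => simp only [map_one]
    | mul y z _ _ h1 h2 => rw [map_mul, map_mul, map_mul, h1, h2]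
    | inv y _ h1 => rw [map_inv, map_inv, map_inv, h1]
  exact LinearEquiv.congr_fun (hker x x.2) v

include hΓ

variable [FiniteDimensional F V]

/-- A normal subgroup whose elements act unipotently contains no scalars. -/
theorem N_uniq {N : Subgroup (commutator (Gt hρ))}
    (hN : ∀ l : List (commutator (Gt hρ)), (∀ x ∈ l, x ∈ N) → finrank F V ≤ l.length →
      (l.map fun x => se hρ x - 1).prod = 0) {x y : commutator (Gt hρ)}
    (hx : x ∈ N) (hy : y ∈ N) (e : pe hρ x = pe hρ y) : se hρ x = se hρ y := by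
  rcases subsingleton_or_nontrivial V with hV | hV
  · exact LinearMap.ext fun v => Subsingleton.elim _ _
  have hz1 : x * y⁻¹ ∈ N := N.mul_mem hx (N.inv_mem hy)
  have hz : pe hρ (x * y⁻¹) = 1 := by rw [map_mul, map_inv, e, mul_inv_cancel]
  obtain ⟨c, hc⟩ := se_sz hρ _ hz
  have h3 := hN (List.replicate (finrank F V) (x * y⁻¹)) (fun z hz => by
    rw [List.eq_of_mem_replicate hz]
    exact hz1) (by rw [List.length_replicate])
  rw [List.map_replicate, List.prod_replicate] at h3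
  have h4 : ∀ (n : ℕ) (v : V), ((se hρ (x * y⁻¹) - 1) ^ n) v = (c - 1) ^ n • v := by
    intro n
    induction n with
    | zero => simp
    | succ n ih =>
      intro v
      rw [pow_succ', Module.End.mul_apply, ih, map_smul, LinearMap.sub_apply,
        Module.End.one_apply, hc, pow_succ, mul_smul, sub_smul, one_smul]
  obtain ⟨v, hv⟩ := exists_ne (0 : V)
  have h5 := h4 (finrank F V) v
  rw [h3, LinearMap.zero_apply] at h5
  have h6 : c = 1 := sub_eq_zero.1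
    (eq_zero_of_pow_eq_zero ((smul_eq_zero.1 h5.symm).resolve_right hv))
  have h7 : se hρ (x * y⁻¹) = 1 := by
    ext v
    rw [hc, h6, one_smul]
    rfl
  have h8 : x = (x * y⁻¹) * y := by group
  rw [h8, map_mul, h7, one_mul]

/-- **The normalised operators**: they are multiplicative, equivariant and unipotent. -/
theorem proj_norm_aux {N : Subgroup (commutator (Gt hρ))} (hNn : N.Normal)
    (hN : ∀ l : List (commutator (Gt hρ)), (∀ x ∈ l, x ∈ N) → finrank F V ≤ l.length →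
      (l.map fun x => se hρ x - 1).prod = 0) (T : Subgroup Γ) (hT : T ≤ N.map (pe hρ))
    (hTn : T.Normal) :
    ∃ c : Γ → Fˣ,
      (∀ φ ∈ T, ∀ ψ ∈ T, ∀ v, c (φ * ψ) • ρ (φ * ψ) v = c φ • ρ φ (c ψ • ρ ψ v)) ∧
      (∀ ψ, ∀ φ ∈ T, ∀ v, ρ ψ (c φ • ρ φ v) =
        c (ψ * φ * ψ⁻¹) • ρ (ψ * φ * ψ⁻¹) (ρ ψ v)) ∧
      (∀ l : List Γ, (∀ φ ∈ l, φ ∈ T) → finrank F V ≤ l.length →
        (l.map fun φ => (c φ : F) • ((ρ φ : V →ₗ[F] V) : Module.End F V) - 1).prod = 0) ∧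
      ((∀ x y v, ρ (x * y) v = ρ x (ρ y v)) → ∀ φ ∈ T, ∀ v, c φ • ρ φ v = ρ φ v) := by
  classical
  have h1 : ∀ φ : Γ, ∃ x : commutator (Gt hρ), φ ∈ T → x ∈ N ∧ pe hρ x = φ := by
    intro φ
    by_cases hφ : φ ∈ T
    · obtain ⟨x, hx, e⟩ := hT hφ
      exact ⟨x, fun _ => ⟨hx, e⟩⟩
    · exact ⟨1, fun h => absurd h hφ⟩
  choose x hx using h1
  choose c hc using fun φ : Γ => se_eq hρ (x φ)
  have hop : ∀ φ ∈ T, ∀ v, se hρ (x φ) v = c φ • ρ φ v := by
    intro φ hφ v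
    rw [hc, (hx φ hφ).2]
  refine ⟨c, ?_, ?_, ?_, ?_⟩
  · intro φ hφ ψ hψ v
    rw [← hop _ (T.mul_mem hφ hψ), ← hop ψ hψ, ← hop φ hφ]
    have h2 : se hρ (x (φ * ψ)) = se hρ (x φ * x ψ) :=
      N_uniq hρ hΓ hN (hx _ (T.mul_mem hφ hψ)).1
        (Subgroup.mul_mem _ (hx φ hφ).1 (hx ψ hψ).1) (by
          rw [(hx _ (T.mul_mem hφ hψ)).2, map_mul, (hx φ hφ).2, (hx ψ hψ).2])
    rw [h2, map_mul, Module.End.mul_apply]
  · intro ψ φ hφ v
    obtain ⟨y, hy⟩ := (ce_pe hρ hΓ).sur ψ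
    obtain ⟨d, hd⟩ := se_eq hρ y
    rw [hy] at hd
    have hφ' := hTn.conj_mem φ hφ ψ
    have h2 : se hρ (x (ψ * φ * ψ⁻¹)) = se hρ (y * x φ * y⁻¹) :=
      N_uniq hρ hΓ hN (hx _ hφ').1 (hNn.conj_mem _ (hx φ hφ).1 y) (by
        rw [(hx _ hφ').2, map_mul, map_mul, map_inv, hy, (hx φ hφ).2])
    rw [← hop _ hφ', h2, ← hop φ hφ]
    have h3 : ∀ u, ρ ψ u = d⁻¹ • se hρ y u := by
      intro u
      rw [hd, inv_smul_smul]
    rw [h3, h3, Units.smul_def, Units.smul_def, map_smul, ← Module.End.mul_apply, ← map_mul,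
      ← Module.End.mul_apply, ← map_mul, inv_mul_cancel_right]
  · intro l hl hlen
    have h2 := hN (l.map x) (by
      intro y hy
      obtain ⟨φ, hφ, rfl⟩ := List.mem_map.1 hy
      exact (hx φ (hl φ hφ)).1) (by rwa [List.length_map])
    rw [List.map_map] at h2
    rw [← h2]
    congr 1
    refine List.map_congr_left fun φ hφ => ?_
    have h3 : se hρ (x φ) = (c φ : F) • ((ρ φ : V →ₗ[F] V) : Module.End F V) := by
      ext v
      exact hop φ (hl φ hφ) v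
    rw [Function.comp_apply, h3]
  · intro hl φ hφ v
    rw [← hop φ hφ, se_lin hρ hl, (hx φ hφ).2]

end gen

section mcg

variable {m : ℕ} {G : Type w} [Group G] {a b : Fin m → G} (h : IsSurf a b)
variable {F : Type u} [Field F] {D : ℕ} {V : Type v} [AddCommGroup V] [Module F V]
  [FiniteDimensional F V] {ρ : MCG a b → (V ≃ₗ[F] V)} (hρ : IsProj ρ)

/-- The Torelli group acts by scalars in the irreducible representations of dimension at most `D`
of the perfect extension in which the kernel acts by scalars. -/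
def GoodP (D : ℕ) : Prop := Lft.GoodE.{u, v, w, max v w} h (pe hρ) F D

theorem goodP (hm : 6 ≤ m) {D : ℕ} (hD : D < 2 ^ (m - 1)) : GoodP h hρ D :=
  Lft.goodE h (ce_pe hρ (mcg_perfect h (by omega))) (perf_pe hρ (mcg_perfect h (by omega))) hm hD

variable {h hρ}

/-- **The normalised operators.** -/
theorem proj_norm (hm : 3 ≤ m) (hG : GoodP h hρ D) (hD : finrank F V ≤ D) :
    ∃ c : MCG a b → Fˣ,
      (∀ φ ∈ Tor h, ∀ ψ ∈ Tor h, ∀ v, c (φ * ψ) • ρ (φ * ψ) v = c φ • ρ φ (c ψ • ρ ψ v)) ∧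
      (∀ ψ, ∀ φ ∈ Tor h, ∀ v, ρ ψ (c φ • ρ φ v) =
        c (ψ * φ * ψ⁻¹) • ρ (ψ * φ * ψ⁻¹) (ρ ψ v)) ∧
      (∀ l : List (MCG a b), (∀ φ ∈ l, φ ∈ Tor h) → finrank F V ≤ l.length →
        (l.map fun φ => (c φ : F) • ((ρ φ : V →ₗ[F] V) : Module.End F V) - 1).prod = 0) ∧
      ((∀ x y v, ρ (x * y) v = ρ x (ρ y v)) → ∀ φ ∈ Tor h, ∀ v, c φ • ρ φ v = ρ φ v) :=
  proj_norm_aux hρ (mcg_perfect h hm) (N := TorL h (pe hρ)) inferInstance
    (fun l hl hlen => hG.unip h V (se hρ) hD (se_sz hρ) l hl hlen) (Tor h)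
    (map_TorL h hm (ce_pe hρ (mcg_perfect h hm)).sur).ge inferInstance

/-- **Completely reducible projective representations.** -/
theorem proj_scalar (hm : 3 ≤ m) (hG : GoodP h hρ D) (hD : finrank F V ≤ D)
    (hcr : ∀ U : Submodule F V, (∀ x, ∀ u ∈ U, ρ x u ∈ U) →
      ∃ W : Submodule F V, (∀ x, ∀ u ∈ W, ρ x u ∈ W) ∧ IsCompl U W) {φ : MCG a b}
    (hφ : φ ∈ Tor h) : ∃ c : Fˣ, ∀ v, ρ φ v = c • v := by
  have hp := mcg_perfect h hm
  rw [← map_TorL h hm (ce_pe hρ hp).sur] at hφ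
  obtain ⟨x, hx, rfl⟩ := hφ
  obtain ⟨c, hc⟩ := se_eq hρ x
  refine ⟨c⁻¹, fun v => ?_⟩
  have h1 := hc v
  rw [hG.cr h V (se hρ) hD (se_cr hρ hp hcr) (se_sz hρ) x hx, Module.End.one_apply] at h1
  conv_rhs => rw [h1]
  rw [inv_smul_smul]

/-- **Congruence.** -/
theorem cong_of_scalar (hm : 3 ≤ m)
    (hs : ∀ φ ∈ Tor h, ∃ c : Fˣ, ∀ v, ρ φ v = c • v)
    (H : Subgroup (MulAut G)) (hH : H.relIndex (MCG a b) ≠ 0)
    (hker : ∀ f : MCG a b, (∃ c : Fˣ, ∀ v, ρ f v = c • v) → (f : MulAut G) ∈ H) :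
    ∃ Γ : Subgroup G, Γ.Characteristic ∧ Γ.FiniteIndex ∧ ∀ φ ∈ MCG a b, InnMod Γ φ → φ ∈ H := by
  have h1 : ∀ f ∈ MCG a b, H1 h f = 1 → f ∈ H := by
    intro f hf hf1
    refine hker ⟨f, hf⟩ (hs _ ?_)
    intro x
    have h2 := congrArg (fun A => A (cls h x)) hf1
    simpa [SP.H1_cls] using h2
  obtain ⟨n, hn, h2⟩ := csp_H1 h hm H hH h1
  obtain ⟨k, rfl⟩ : ∃ k : ℕ, n = k := ⟨n.toNat, (Int.toNat_of_nonneg hn.le).symm⟩
  obtain ⟨Γ, hc, hf, hle⟩ := exists_char_lev h (n := k) (by omega)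
  exact ⟨Γ, hc, hf, fun φ hφ hi => h2 φ hφ (dv_of_innMod h hle hi)⟩

/-- **Congruence**, for completely reducible projective representations. -/
theorem proj_cong (hm : 3 ≤ m) (hG : GoodP h hρ D) (hD : finrank F V ≤ D)
    (hcr : ∀ U : Submodule F V, (∀ x, ∀ u ∈ U, ρ x u ∈ U) →
      ∃ W : Submodule F V, (∀ x, ∀ u ∈ W, ρ x u ∈ W) ∧ IsCompl U W)
    (H : Subgroup (MulAut G)) (hH : H.relIndex (MCG a b) ≠ 0)
    (hker : ∀ f : MCG a b, (∃ c : Fˣ, ∀ v, ρ f v = c • v) → (f : MulAut G) ∈ H) :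
    ∃ Γ : Subgroup G, Γ.Characteristic ∧ Γ.FiniteIndex ∧ ∀ φ ∈ MCG a b, InnMod Γ φ → φ ∈ H :=
  cong_of_scalar hm (fun _ hφ => proj_scalar hm hG hD hcr hφ) H hH hker

/-- **No faithful projective representation.** -/
theorem proj_ker (hm : 4 ≤ m) (hG : GoodP h hρ D) (hD : finrank F V ≤ D) :
    ∃ φ : MCG a b, (∃ c : Fˣ, ∀ v, ρ φ v = c • v) ∧
      (∀ x, cls h ((φ : MulAut G) x) = cls h x) ∧
      ∀ c : G, (φ : MulAut G) ≠ MulAut.conj c := by
  obtain ⟨n, rfl⟩ : ∃ n, m = n + 1 := ⟨m - 1, by omega⟩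
  have hp := mcg_perfect h (by omega : 3 ≤ n + 1)
  have hJ : JT (se hρ) (TorL h (pe hρ)) ^ finrank F V = ⊥ :=
    JT_pow_bot fun l hl hlen => hG.unip h V (se hρ) hD (se_sz hρ) l hl hlen
  have hTL : ∀ φ ∈ Tor h, ∃ x ∈ TorL h (pe hρ), pe hρ x = φ := by
    intro φ hφ
    rw [← map_TorL h (by omega) (ce_pe hρ hp).sur] at hφ
    exact hφ
  let z : Fr n := cz ⟨0, by omega⟩ ⟨1, by omega⟩
  let z' : Fr n := cz ⟨1, by omega⟩ ⟨2, by omega⟩
  have hz : Pool.Agent.H.MP_59b15d_al.H93C.hs z = 1 := hs_cz (by simp)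
  have hz' : Pool.Agent.H.MP_59b15d_al.H93C.hs z' = 1 := hs_cz (by simp)
  have hM : ∀ y : Fr n, XX h y ∈ MCG a b := by
    intro y
    rw [MCG_eq h]
    exact XX_mem h y
  have hT : ∀ y : Fr n, Pool.Agent.H.MP_59b15d_al.H93C.hs y = 1 →
      (⟨XX h y, hM y⟩ : MCG a b) ∈ Tor h := by
    intro y hy x
    have h1 := XX_triv h hy
    have h2 := congrArg (fun A => A (cls h x)) h1
    simpa [SP.H1_cls] using h2
  obtain ⟨ζ, hζ, eζ⟩ := hTL _ (hT _ hz)
  have key : ∀ j, ∃ x ∈ TorL h (pe hρ),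
      pe hρ x = ⟨XX h (ww z z' j), hM _⟩ ∧
        se hρ x - 1 ∈ JT (se hρ) (TorL h (pe hρ)) ^ (j + 1) := by
    intro j
    induction j with
    | zero =>
      obtain ⟨x, hx, ex⟩ := hTL _ (hT _ hz')
      refine ⟨x, hx, ex, ?_⟩
      rw [zero_add, pow_one]
      exact mem_JT hx
    | succ j ih =>
      obtain ⟨x, hx, ex, hj⟩ := ih
      refine ⟨x * ζ * x⁻¹ * ζ⁻¹, ?_, ?_, filt hx hζ hj⟩
      · exact Subgroup.mul_mem _ (Subgroup.mul_mem _ (Subgroup.mul_mem _ hx hζ)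
          (Subgroup.inv_mem _ hx)) (Subgroup.inv_mem _ hζ)
      · rw [map_mul, map_mul, map_mul, map_inv, map_inv, ex, eζ]
        apply Subtype.ext
        change XX h (ww z z' j) * XX h z * (XX h (ww z z' j))⁻¹ * (XX h z)⁻¹ =
          XX h (ww z z' (j + 1))
        rw [ww, map_mul, map_mul, map_mul, map_inv, map_inv]
  obtain ⟨x, hx, ex, hj⟩ := key (finrank F V + 1)
  refine ⟨⟨XX h (ww z z' (finrank F V + 1)), hM _⟩, ?_, hT _ (ww_map _ hz hz' _), fun c =>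
    XX_not_inner h Xp (Pd_ne (Pd_ww (by omega) (finrank F V))) c⟩
  rw [show finrank F V + 1 + 1 = finrank F V + 2 by omega, pow_add, hJ, Submodule.bot_mul,
    Submodule.mem_bot, sub_eq_zero] at hj
  obtain ⟨c, hc⟩ := se_eq hρ x
  refine ⟨c⁻¹, fun v => ?_⟩
  have h1 := hc v
  rw [hj, Module.End.one_apply, ex] at h1
  conv_rhs => rw [h1]
  rw [inv_smul_smul]

end mcg

end Pool.Agent.H.MP_59b15d_al.H73P
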