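import Pool.Agent.H.MP_59b15d_al.h73p.Tor1
import Pool.Agent.H.MP_59b15d_al.lin.SipKer
import Pool.Agent.H.MP_59b15d_al.deg.Alpha
import Pool.Agent.H.MP_59b15d_al.h11r.Ns
import Pool.Agent.H.MP_59b15d_al.h73p.Cext
import Pool.Agent.H.MP_59b15d_al.h11c.Tree
import Pool.Agent.H.MP_59b15d_al.h73p.Gt

/-!
From the irreducible representations of a central extension of the mapping class group to the
elements which act trivially in all of them.
-/

set_option autoImplicit false

namespace Pool.Agent.H.MP_59b15d_al.H73P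

universe u v w x

open Module Pool.Agent.H.MP_59b15d_al.Lft Pool.Agent.H.MP_59b15d_al.H52E
open Pool.MP_59b15d_al.H24T Pool.MP_59b15d_al.H76R Pool.MP_59b15d_al.H73E
open Pool.MP_59b15d_al.H60G Pool.MP_59b15d_al.H40L Pool.MP_59b15d_al.H46U
open Pool.MP_59b15d_al.H93E
open Pool.Agent.H.MP_59b15d_al.Lin (uA uB uC)

section unip

variable {F : Type u} [Field F] {E : Type x} [Group E] {W : Type v} [AddCommGroup W] [Module F W]
  (τ : E →* Module.End F W)

/-- Conjugate elements are unipotent together. -/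
theorem unip_sc {s y z : E} (hs : SemiconjBy s y z) {r : ℕ} (hy : (τ y - 1) ^ r = 0) :
    (τ z - 1) ^ r = 0 := by
  have h1 : SemiconjBy (τ s) (τ y - 1) (τ z - 1) := by
    have h2 : SemiconjBy (τ s) (τ y) (τ z) := by
      change τ s * τ y = τ z * τ s
      rw [← map_mul, ← map_mul, hs.eq]
    exact h2.sub_right (SemiconjBy.one_right _)
  have h2 := (h1.pow_right r).eq
  rw [hy, mul_zero] at h2
  have h3 : (τ z - 1) ^ r * (τ s * τ s⁻¹) = 0 := by rw [← mul_assoc, ← h2, zero_mul]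
  rwa [← map_mul, mul_inv_cancel, map_one, mul_one] at h3

/-- A unipotent operator has a fixed vector. -/
theorem exists_fix [Nontrivial W] {N : Module.End F W} {r : ℕ} (hN : N ^ r = 0) :
    ∃ v, v ≠ 0 ∧ N v = 0 := by
  by_contra hcon
  push Not at hcon
  have key : ∀ n : ℕ, ∀ v, v ≠ 0 → (N ^ n) v ≠ 0 := by
    intro n
    induction n with
    | zero => intro v hv; simpa using hv
    | succ n ih =>
      intro v hv
      rw [pow_succ, Module.End.mul_apply]
      exact ih _ (hcon v hv)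
  obtain ⟨v, hv⟩ := exists_ne (0 : W)
  exact key r v hv (by rw [hN, LinearMap.zero_apply])

/-- Two proportional unipotent operators are equal. -/
theorem unip_unique [Nontrivial W] {M N : Module.End F W} {c : F} (hc : ∀ v, M v = c • N v)
    {r s : ℕ} (hM : (M - 1) ^ r = 0) (hN : (N - 1) ^ s = 0) : c = 1 := by
  obtain ⟨v, hv0, hv⟩ := exists_fix hN
  have h1 : N v = v := by
    rwa [LinearMap.sub_apply, Module.End.one_apply, sub_eq_zero] at hv
  have h2 : ∀ n : ℕ, ((M - 1) ^ n) v = (c - 1) ^ n • v := by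
    intro n
    induction n with
    | zero => simp
    | succ n ih =>
      rw [pow_succ', Module.End.mul_apply, ih, map_smul, LinearMap.sub_apply,
        Module.End.one_apply, hc, h1, pow_succ, mul_smul, sub_smul, one_smul]
  have h3 := h2 r
  rw [hM, LinearMap.zero_apply] at h3
  have h4 := (smul_eq_zero.1 h3.symm).resolve_right hv0
  exact sub_eq_zero.1 (eq_zero_of_pow_eq_zero h4)

end unip

section main

variable {m : ℕ} {G : Type w} [Group G] {a b : Fin m → G} (h : IsSurf a b)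
variable {F : Type u} [Field F] {D : ℕ}
variable {E : Type x} [Group E] {π : E →* MCG a b}

/-- The hypothesis on the irreducible representations of the extension: two consecutive bounding
pair maps act trivially and the twist is unipotent. -/
def GoodE (m : ℕ) (E : Type x) [Group E] (F : Type u) [Field F] (D : ℕ) (A' T' : ℕ → E) : Prop :=
  ∀ (W : Type v) [AddCommGroup W] [Module F W] [FiniteDimensional F W] (τ : E →* Module.End F W),
    finrank F W ≤ D → Irr τ →
      (∃ q, 0 < q ∧ q + 2 < m ∧ τ (A' q) = τ (T' q) ∧ τ (A' (q + 1)) = τ (T' (q + 1))) ∧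
      ∃ r : ℕ, (τ (A' 0) - 1) ^ r = 0

theorem AT_mem (hm : 3 ≤ m) [IsAlgClosed F] (hπ : CE π) {A' B' C' S' T' : ℕ → E}
    (L : Lk m A' B' C' S') (pA : ∀ i, i < m → π (A' i) = uA h i)
    (pT : ∀ q : Fin m, 0 < (q : ℕ) → (q : ℕ) + 1 < m → π (T' q) = uT h q)
    (brT : ∀ q, 0 < q → q + 1 < m → T' q * B' q * T' q = B' q * T' q * B' q)
    (hE : GoodE.{u, v, x} m E F D A' T') {q : ℕ} (h0 : 0 < q) (h1 : q + 1 < m) :
    (A' q)⁻¹ * T' q ∈ T1.{u, v, x} E F D := by
  intro W _ _ _ τ hD hirr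
  rcases subsingleton_or_nontrivial W with hW | hW
  · exact LinearMap.ext fun v => Subsingleton.elim _ _
  obtain ⟨⟨p, hp0, hp1, e1, e2⟩, r, hr⟩ := hE W τ hD hirr
  -- the image of the kernel
  have hN : (τ.ker.map π).Normal := Subgroup.Normal.map inferInstance π hπ.sur
  have mem : ∀ p : Fin m, 0 < (p : ℕ) → (p : ℕ) + 1 < m → τ (A' p) = τ (T' p) →
      (uA h p)⁻¹ * uT h p ∈ τ.ker.map π := by
    intro p hp0 hp1 e
    refine ⟨(A' p)⁻¹ * T' p, ?_, ?_⟩
    · change τ ((A' p)⁻¹ * T' p) = 1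
      rw [map_mul, ← e, ← map_mul, inv_mul_cancel, map_one]
    · rw [map_mul, map_inv, pA p p.2, pT p hp0 hp1]
  have t1 : Tor h ≤ τ.ker.map π := tor_le h hm _ (q := ⟨p, by omega⟩) (q' := ⟨p + 1, by omega⟩) rfl
    (mem ⟨p, by omega⟩ hp0 (by simp; omega) e1)
    (mem ⟨p + 1, by omega⟩ (by simp) (by simp; omega) e2)
  obtain ⟨x, hx, e⟩ := t1 (uA_uT_tor h ⟨q, by omega⟩)
  have e3 : π ((A' q)⁻¹ * T' q) = π x := by
    rw [e, map_mul, map_inv, pA q (by omega), ← pT ⟨q, by omega⟩ h0 h1]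
  obtain ⟨z, hz, e4⟩ := exists_z e3
  obtain ⟨c, hc⟩ := schur_z hirr (hπ.cen z hz)
  have hx' : τ x = 1 := hx
  have e5 : ∀ v, τ ((A' q)⁻¹ * T' q) v = c • v := by
    intro v
    rw [e4, map_mul, hx', mul_one, hc]
  have e6 : ∀ v, τ (T' q) v = c • τ (A' q) v := by
    intro v
    have h2 : T' q = A' q * ((A' q)⁻¹ * T' q) := by group
    conv_lhs => rw [h2]
    rw [map_mul, Module.End.mul_apply, e5, map_smul]
  -- unipotence
  have uA' : ∀ i, i < m → (τ (A' i) - 1) ^ r = 0 := by
    intro i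
    induction i with
    | zero => exact fun _ => hr
    | succ i ih => exact fun hi => unip_sc τ (L.SA i hi) (ih (by omega))
  have uB' : (τ (B' q) - 1) ^ r = 0 :=
    unip_sc τ (Br.sc (L.brA q)) (uA' q (by omega))
  have uT' : (τ (T' q) - 1) ^ r = 0 :=
    unip_sc τ (Br.sc (x := B' q) (y := T' q) (brT q h0 h1).symm) uB'
  have e7 : c = 1 := unip_unique e6 uT' (uA' q (by omega))
  ext v
  rw [e5, e7, one_smul]
  rfl

/-- The elements of the Torelli group have lifts which act trivially in all irreducible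
representations. -/
theorem T1_tor (hm : 4 ≤ m) [IsAlgClosed F] (hπ : CE π) {A' B' C' S' T' : ℕ → E}
    (L : Lk m A' B' C' S') (pA : ∀ i, i < m → π (A' i) = uA h i)
    (pT : ∀ q : Fin m, 0 < (q : ℕ) → (q : ℕ) + 1 < m → π (T' q) = uT h q)
    (brT : ∀ q, 0 < q → q + 1 < m → T' q * B' q * T' q = B' q * T' q * B' q)
    (hE : GoodE.{u, v, x} m E F D A' T') : Tor h ≤ (T1.{u, v, x} E F D).map π := by
  have hN : ((T1.{u, v, x} E F D).map π).Normal := Subgroup.Normal.map inferInstance π hπ.sur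
  have mem : ∀ p : Fin m, 0 < (p : ℕ) → (p : ℕ) + 1 < m →
      (uA h p)⁻¹ * uT h p ∈ (T1.{u, v, x} E F D).map π := by
    intro p hp0 hp1
    refine ⟨(A' p)⁻¹ * T' p, AT_mem h (by omega) hπ L pA pT brT hE hp0 hp1, ?_⟩
    rw [map_mul, map_inv, pA p p.2, pT p hp0 hp1]
  exact tor_le h (by omega) _ (q := ⟨1, by omega⟩) (q' := ⟨2, by omega⟩) rfl
    (mem ⟨1, by omega⟩ (by simp) (by simp; omega)) (mem ⟨2, by omega⟩ (by simp) (by simp; omega))

end main

end Pool.Agent.H.MP_59b15d_al.H73P
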