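import Pool.Agent.H.MP_59b15d_al.h47p.Ew
import Pool.Agent.H.MP_59b15d_al.h46u.Inst
import Pool.Agent.H.MP_59b15d_al.deg.Star
import Pool.Agent.H.MP_59b15d_al.deg.Alpha

/-!
The lantern relation of three consecutive handles, with the seventh twist as a word.
-/

set_option autoImplicit false

namespace Pool.Agent.H.MP_59b15d_al.H73P

open Pool.MP_59b15d_al.H24T Pool.MP_59b15d_al.H76R Pool.MP_59b15d_al.H73E
open Pool.MP_59b15d_al.H60G Pool.MP_59b15d_al.H40L Pool.MP_59b15d_al.H46U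
open Pool.MP_59b15d_al.H95E Pool.MP_59b15d_al.H93E Pool.MP_59b15d_al.H47E
open Pool.MP_59b15d_al.H47P
open Pool.Agent.H.MP_59b15d_al.Deg
open Pool.Agent.H.MP_59b15d_al.Lin (uA uB uC)

variable {m : ℕ} {G : Type*} [Group G] {a b : Fin m → G}

/-- The seventh twist is the word `Ew`. -/
theorem Ew_TrA (h : IsSurf a b) {i : ℕ} (hi : i + 2 < m) :
    Ew (TrA h) (TrB h) (TrC h) i =
      CE h ⟨i, by omega⟩ ⟨i + 1, by omega⟩ ⟨i + 2, hi⟩ rfl rfl := by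
  rw [CE_eq, Ew, Ge, GE, TrA_lt h (by omega : i + 1 < m), TrB_lt h (by omega : i + 1 < m),
    TrC_lt h (by omega : i + 1 + 1 < m), TrC_lt h (by omega : i + 1 < m), inv_inv]

/-- The lantern relation. -/
theorem lan_w (h : IsSurf a b) {i : ℕ} (hi : i + 2 < m) :
    fa (TrC h) (TrS h) i 0 * ((TrA h (i + 1) * TrB h (i + 1)) ^ 3 * fa (TrC h) (TrS h) (i + 1) 0 *
      ((TrA h (i + 1) * TrB h (i + 1)) ^ 3)⁻¹) * fa (TrC h) (TrS h) i 1 =
    TrA h i * TrA h (i + 1) * TrA h (i + 2) * Ew (TrA h) (TrB h) (TrC h) i := by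
  have e1 : fa (TrC h) (TrS h) i 0 = CC h ⟨i, by omega⟩ ⟨i + 1, by omega⟩ rfl := by
    rw [fa_zero, TrC_lt h (by omega : i + 1 < m)]
  have e2 : fa (TrC h) (TrS h) (i + 1) 0 = CC h ⟨i + 1, by omega⟩ ⟨i + 2, hi⟩ rfl := by
    rw [fa_zero]
    exact TrC_lt h (by omega : i + 1 + 1 < m)
  have e3 : fa (TrC h) (TrS h) i 1 =
      (SW h ⟨i + 1, by omega⟩ ⟨i + 2, hi⟩ rfl)⁻¹ * CC h ⟨i, by omega⟩ ⟨i + 1, by omega⟩ rfl *
        SW h ⟨i + 1, by omega⟩ ⟨i + 2, hi⟩ rfl := by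
    have e4 : fa (TrC h) (TrS h) i 1 =
      (TrS h (i + 1))⁻¹ * fa (TrC h) (TrS h) i 0 * TrS h (i + 1) := rfl
    rw [e4, e1, TrS_lt h (by omega : i + 1 + 1 < m)]
  have e5 : (TrA h (i + 1) * TrB h (i + 1)) ^ 3 = IO h ⟨i + 1, by omega⟩ := by
    rw [IO_eq, TrA_lt h (by omega : i + 1 < m), TrB_lt h (by omega : i + 1 < m)]
  rw [e1, e2, e3, e5, LAN, Ew_TrA h hi, TrA_lt h (by omega : i < m),
    TrA_lt h (by omega : i + 1 < m), TrA_lt h (by omega : i + 2 < m)]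

/-- The lantern relation in the mapping class group. -/
theorem lan_u (h : IsSurf a b) {i : ℕ} (hi : i + 2 < m) :
    fa (uC h) (uS h) i 0 * ((uA h (i + 1) * uB h (i + 1)) ^ 3 * fa (uC h) (uS h) (i + 1) 0 *
      ((uA h (i + 1) * uB h (i + 1)) ^ 3)⁻¹) * fa (uC h) (uS h) i 1 =
    uA h i * uA h (i + 1) * uA h (i + 2) * Ew (uA h) (uB h) (uC h) i :=
  Subtype.ext (lan_w h hi)

end Pool.Agent.H.MP_59b15d_al.H73P
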